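import Mathlib
import Pool.Agent.Helper28.HN.Defs

/-!
# Project HN: naturality and linearity of the definitions
-/

namespace Pool.Agent.Helper47.HN

open MvPolynomial Pool.Agent.Helper28.HN

section map

variable {m : ℕ} {S T : Type*} [CommRing S] [CommRing T] (f : S →+* T)

theorem map_lf (c : Ix m → S) (r : Fin m) (x y : I m → S) :
    f (lf c r x y) = lf (fun e => f (c e)) r (fun i => f (x i)) fun i => f (y i) := by
  simp only [lf, map_sum, map_mul]

theorem map_qf (c : Ix m → S) (x x' y y' : I m → S) :
    f (qf c x x' y y') = qf (fun e => f (c e)) (fun i => f (x i)) (fun i => f (x' i))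
      (fun i => f (y i)) fun i => f (y' i) := by
  simp only [qf, pq, map_sum, map_mul, map_add]

theorem map_single {J : Type*} [DecidableEq J] (j : J) :
    (fun i => f ((Pi.single j 1 : J → S) i)) = Pi.single j 1 := by
  funext i
  by_cases h : i = j
  · subst h
    simp
  · simp [Pi.single_eq_of_ne h]

theorem map_aff {n : ℕ} (u : Fin n → S) :
    (fun i => f ((Fin.cons 1 u : Fin (n + 1) → S) i)) = Fin.cons 1 fun i => f (u i) := by
  funext i
  refine Fin.cases ?_ (fun j => ?_) i
  · simp
  · simp

theorem map_affI (u : Fin (m + 1) → S) :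
    (fun i => f ((aff u : I m → S) i)) = aff fun i => f (u i) := map_aff f u

theorem map_Mx (c : Ix m → S) (x : I m → S) :
    f.mapMatrix (Mx c x) = Mx (fun e => f (c e)) fun i => f (x i) := by
  ext r b
  simp only [RingHom.mapMatrix_apply, Matrix.map_apply, Mx, map_lf, map_single]

theorem map_Mx_det (c : Ix m → S) (x : I m → S) :
    f (Mx c x).det = (Mx (fun e => f (c e)) fun i => f (x i)).det := by
  rw [RingHom.map_det, map_Mx]

theorem map_mulVec {n : ℕ} (M : Matrix (Fin n) (Fin n) S) (v : Fin n → S) (i : Fin n) :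
    f (M.mulVec v i) = (f.mapMatrix M).mulVec (fun j => f (v j)) i := by
  simp only [Matrix.mulVec, dotProduct, map_sum, map_mul, RingHom.mapMatrix_apply,
    Matrix.map_apply]

theorem map_Y0 (c : Ix m → S) (x : I m → S) (i : I m) :
    f (Y0 c x i) = Y0 (fun e => f (c e)) (fun i => f (x i)) i := by
  refine Fin.cases ?_ (fun j => Fin.cases ?_ (fun b => ?_) j) i
  · simp only [Y0, Fin.cons_zero, map_Mx_det]
  · simp only [Y0, Fin.cons_succ, Fin.cons_zero, map_zero]
  · simp only [Y0, Fin.cons_succ, Pi.neg_apply, map_neg, map_mulVec, RingHom.map_adjugate, map_Mx,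
      map_lf, map_single]

theorem map_Y1 (c : Ix m → S) (x : I m → S) (i : I m) :
    f (Y1 c x i) = Y1 (fun e => f (c e)) (fun i => f (x i)) i := by
  refine Fin.cases ?_ (fun j => Fin.cases ?_ (fun b => ?_) j) i
  · simp only [Y1, Fin.cons_zero, map_zero]
  · simp only [Y1, Fin.cons_succ, Fin.cons_zero, map_Mx_det]
  · simp only [Y1, Fin.cons_succ, Pi.neg_apply, map_neg, map_mulVec, RingHom.map_adjugate, map_Mx,
      map_lf, map_single]

theorem map_yh (c : Ix m → S) (x : I m → S) (z : S) (i : I m) :
    f (yh c x z i) = yh (fun e => f (c e)) (fun i => f (x i)) (f z) i := by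
  simp only [yh, map_add, map_mul, map_Y0, map_Y1]

theorem map_Fh (c : Ix m → S) (x : I m → S) (z : S) :
    f (Fh c x z) = Fh (fun e => f (c e)) (fun i => f (x i)) (f z) := by
  simp only [Fh, map_qf, map_yh]

theorem map_Ah (c : Ix m → S) (x : I m → S) :
    f (Ah c x) = Ah (fun e => f (c e)) fun i => f (x i) := by
  simp only [Ah, map_qf, map_Y1]

theorem map_Bh (c : Ix m → S) (x : I m → S) :
    f (Bh c x) = Bh (fun e => f (c e)) fun i => f (x i) := by
  simp only [Bh, map_qf, map_Y0, map_Y1]

theorem map_Ch (c : Ix m → S) (x : I m → S) :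
    f (Ch c x) = Ch (fun e => f (c e)) fun i => f (x i) := by
  simp only [Ch, map_qf, map_Y0]

theorem map_Nx (c : Ix m → S) (y : I m → S) :
    f.mapMatrix (Nx c y) = Nx (fun e => f (c e)) fun i => f (y i) := by
  ext r b
  simp only [RingHom.mapMatrix_apply, Matrix.map_apply, Nx, map_lf, map_single]

theorem map_Nx_det (c : Ix m → S) (y : I m → S) :
    f (Nx c y).det = (Nx (fun e => f (c e)) fun i => f (y i)).det := by
  rw [RingHom.map_det, map_Nx]

theorem map_vh (c : Ix m → S) (y : I m → S) (i : Fin (m + 1)) :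
    f (vh c y i) = vh (fun e => f (c e)) (fun i => f (y i)) i := by
  refine Fin.lastCases ?_ (fun j => ?_) i
  · simp only [vh, Fin.snoc_last, map_Nx_det]
  · simp only [vh, Fin.snoc_castSucc, Pi.neg_apply, map_neg, map_mulVec, RingHom.map_adjugate,
      map_Nx, map_lf, map_single]

theorem map_xh (c : Ix m → S) (y : I m → S) (i : I m) :
    f (xh c y i) = xh (fun e => f (c e)) (fun i => f (y i)) i := by
  refine Fin.cases ?_ (fun j => ?_) i
  · simp only [xh, Fin.cons_zero, map_zero]
  · simp only [xh, Fin.cons_succ, map_vh]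

theorem map_nx (c : Ix m → S) (x y : I m → S) (i : I m) :
    f (nx c x y i) = nx (fun e => f (c e)) (fun i => f (x i)) (fun i => f (y i)) i := by
  simp only [nx, map_sub, map_mul, map_qf, map_xh, map_ofNat]

theorem map_ny (c : Ix m → S) (x y : I m → S) (i : I m) :
    f (ny c x y i) = ny (fun e => f (c e)) (fun i => f (x i)) (fun i => f (y i)) i := by
  simp only [ny, map_sub, map_mul, map_qf, map_Y1, map_Ah, map_ofNat]

theorem map_kah (c : Ix m → S) (x : I m → S) (z : S) :
    f (kah c x z) = kah (fun e => f (c e)) (fun i => f (x i)) (f z) := by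
  simp only [kah, map_qf, map_xh, map_yh]

theorem map_psh (c : Ix m → S) (x : I m → S) (z : S) :
    f (psh c x z) = psh (fun e => f (c e)) (fun i => f (x i)) (f z) := by
  simp only [psh, map_qf, map_xh, map_yh]

theorem OnX.map {c : Ix m → S} {x y : I m → S} (h : OnX c x y) :
    OnX (fun e => f (c e)) (fun i => f (x i)) fun i => f (y i) := by
  refine ⟨fun r => ?_, ?_⟩
  · rw [← map_lf, h.1 r, map_zero]
  · rw [← map_qf, h.2, map_zero]

end map

section linear

variable {m : ℕ} {S : Type*} [CommRing S] (c : Ix m → S)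

theorem lf_add_right (r : Fin m) (x y y' : I m → S) :
    lf c r x (fun i => y i + y' i) = lf c r x y + lf c r x y' := by
  simp only [lf, mul_add, Finset.sum_add_distrib]

theorem lf_smul_right (r : Fin m) (a : S) (x y : I m → S) :
    lf c r x (fun i => a * y i) = a * lf c r x y := by
  simp only [lf, Finset.mul_sum]
  refine Finset.sum_congr rfl fun i _ => Finset.sum_congr rfl fun j _ => ?_
  ring

theorem lf_add_left (r : Fin m) (x x' y : I m → S) :
    lf c r (fun i => x i + x' i) y = lf c r x y + lf c r x' y := by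
  simp only [lf, mul_add, add_mul, Finset.sum_add_distrib]

theorem lf_smul_left (r : Fin m) (a : S) (x y : I m → S) :
    lf c r (fun i => a * x i) y = a * lf c r x y := by
  simp only [lf, Finset.mul_sum]
  refine Finset.sum_congr rfl fun i _ => Finset.sum_congr rfl fun j _ => ?_
  ring

theorem lf_expand (r : Fin m) (x y : I m → S) :
    lf c r x y = y 0 * lf c r x (Pi.single 0 1) + y 1 * lf c r x (Pi.single 1 1) +
      ∑ b : Fin m, lf c r x (Pi.single b.succ.succ 1) * y b.succ.succ := by
  have h : ∀ j : I m, lf c r x (Pi.single j 1) = ∑ i, c (.inl (r, i, j)) * x i := by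
    intro j
    simp only [lf]
    refine Finset.sum_congr rfl fun i _ => ?_
    rw [Finset.sum_eq_single j]
    · rw [Pi.single_eq_same, mul_one]
    · intro b _ hb
      rw [Pi.single_eq_of_ne hb, mul_zero]
    · intro hj
      exact absurd (Finset.mem_univ j) hj
  simp only [h]
  have key : ∀ G : I m → S, ∑ j, G j = G 0 + G 1 + ∑ b : Fin m, G b.succ.succ := by
    intro G
    rw [Fin.sum_univ_succ, Fin.sum_univ_succ, ← add_assoc]
    rfl
  rw [lf, Finset.sum_comm, key]
  congr 1
  · congr 1
    · rw [Finset.mul_sum]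
      refine Finset.sum_congr rfl fun i _ => ?_
      ring
    · rw [Finset.mul_sum]
      refine Finset.sum_congr rfl fun i _ => ?_
      ring
  · refine Finset.sum_congr rfl fun b _ => ?_
    rw [Finset.sum_mul]

theorem pq_symm_right (i j k l : I m) : pq c i j k l = pq c i j l k := by
  simp only [pq]
  ring

theorem pq_symm_left (i j k l : I m) : pq c i j k l = pq c j i k l := by
  simp only [pq]
  ring

theorem qf_add4 (x x' y y' y'' : I m → S) :
    qf c x x' y (fun i => y' i + y'' i) = qf c x x' y y' + qf c x x' y y'' := by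
  simp only [qf, mul_add, Finset.sum_add_distrib]

theorem qf_smul4 (a : S) (x x' y y' : I m → S) :
    qf c x x' y (fun i => a * y' i) = a * qf c x x' y y' := by
  simp only [qf, Finset.mul_sum]
  refine Finset.sum_congr rfl fun i _ => Finset.sum_congr rfl fun j _ =>
    Finset.sum_congr rfl fun k _ => Finset.sum_congr rfl fun l _ => ?_
  ring

theorem qf_symm_right (x x' y y' : I m → S) : qf c x x' y y' = qf c x x' y' y := by
  simp only [qf]
  refine Finset.sum_congr rfl fun i _ => Finset.sum_congr rfl fun j _ => ?_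
  rw [Finset.sum_comm]
  refine Finset.sum_congr rfl fun k _ => Finset.sum_congr rfl fun l _ => ?_
  rw [pq_symm_right]
  ring

theorem qf_symm_left (x x' y y' : I m → S) : qf c x x' y y' = qf c x' x y y' := by
  simp only [qf]
  rw [Finset.sum_comm]
  refine Finset.sum_congr rfl fun i _ => Finset.sum_congr rfl fun j _ =>
    Finset.sum_congr rfl fun k _ => Finset.sum_congr rfl fun l _ => ?_
  rw [pq_symm_left]
  ring

theorem qf_add3 (x x' y y' y'' : I m → S) :
    qf c x x' (fun i => y i + y' i) y'' = qf c x x' y y'' + qf c x x' y' y'' := by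
  rw [qf_symm_right, qf_add4, qf_symm_right c x x' y'' y, qf_symm_right c x x' y'' y']

theorem qf_smul3 (a : S) (x x' y y' : I m → S) :
    qf c x x' (fun i => a * y i) y' = a * qf c x x' y y' := by
  rw [qf_symm_right, qf_smul4, qf_symm_right c x x' y' y]

theorem qf_add2 (x x' x'' y y' : I m → S) :
    qf c x (fun i => x' i + x'' i) y y' = qf c x x' y y' + qf c x x'' y y' := by
  simp only [qf, mul_add, add_mul, Finset.sum_add_distrib]

theorem qf_smul2 (a : S) (x x' y y' : I m → S) :
    qf c x (fun i => a * x' i) y y' = a * qf c x x' y y' := by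
  simp only [qf, Finset.mul_sum]
  refine Finset.sum_congr rfl fun i _ => Finset.sum_congr rfl fun j _ =>
    Finset.sum_congr rfl fun k _ => Finset.sum_congr rfl fun l _ => ?_
  ring

theorem qf_add1 (x x' x'' y y' : I m → S) :
    qf c (fun i => x i + x' i) x'' y y' = qf c x x'' y y' + qf c x' x'' y y' := by
  rw [qf_symm_left, qf_add2, qf_symm_left c x'' x, qf_symm_left c x'' x']

theorem qf_smul1 (a : S) (x x' y y' : I m → S) :
    qf c (fun i => a * x i) x' y y' = a * qf c x x' y y' := by
  rw [qf_symm_left, qf_smul2, qf_symm_left c x' x]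

theorem Fh_eq (x : I m → S) (z : S) :
    Fh c x z = Ah c x * z ^ 2 + 2 * Bh c x * z + Ch c x := by
  have e : yh c x z = fun i => Y0 c x i + z * Y1 c x i := rfl
  rw [Fh, e, qf_add4, qf_add3, qf_add3, qf_smul3, qf_smul4, qf_smul3, qf_smul4,
    qf_symm_right c x x (Y1 c x) (Y0 c x), Ah, Bh, Ch]
  ring

/-- The points of the line over `x`. -/
theorem det_mul_eq (x y : I m → S) (h : ∀ r, lf c r x y = 0) (i : I m) :
    (Mx c x).det * y i = y 0 * Y0 c x i + y 1 * Y1 c x i := by
  refine Fin.cases ?_ (fun j => Fin.cases ?_ (fun b => ?_) j) i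
  · simp only [Y0, Y1, Fin.cons_zero]
    ring
  · simp only [Y0, Y1, Fin.cons_succ, Fin.cons_zero]
    have e1 : (Fin.succ 0 : Fin (m + 2)) = 1 := rfl
    rw [e1]
    ring
  · simp only [Y0, Y1, Fin.cons_succ, Pi.neg_apply]
    have h1 : (Mx c x).mulVec (fun b : Fin m => y b.succ.succ) =
        fun r => - (y 0 * lf c r x (Pi.single 0 1) + y 1 * lf c r x (Pi.single 1 1)) := by
      funext r
      have h2 := lf_expand c r x y
      rw [h r] at h2
      have h3 : (Mx c x).mulVec (fun b : Fin m => y b.succ.succ) r =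
          ∑ b : Fin m, lf c r x (Pi.single b.succ.succ 1) * y b.succ.succ := rfl
      rw [h3]
      linear_combination -h2
    have h4 : (Mx c x).det * y b.succ.succ =
        (Mx c x).adjugate.mulVec ((Mx c x).mulVec (fun b : Fin m => y b.succ.succ)) b := by
      rw [Matrix.mulVec_mulVec, Matrix.adjugate_mul, Matrix.smul_mulVec, Matrix.one_mulVec]
      rfl
    rw [h4, h1]
    have h5 : (fun r => - (y 0 * lf c r x (Pi.single 0 1) + y 1 * lf c r x (Pi.single 1 1))) =
        (- y 0) • (fun r => lf c r x (Pi.single 0 1)) +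
          (- y 1) • fun r => lf c r x (Pi.single 1 1) := by
      funext r
      simp only [Pi.add_apply, Pi.smul_apply, smul_eq_mul]
      ring
    rw [h5, Matrix.mulVec_add, Matrix.mulVec_smul, Matrix.mulVec_smul]
    simp only [Pi.add_apply, Pi.smul_apply, smul_eq_mul]
    ring

/-- The quadratic equation of `y 1`. -/
theorem quad_eq (x y : I m → S) (h : OnX c x y) (h0 : y 0 = 1) :
    Ah c x * y 1 ^ 2 + 2 * Bh c x * y 1 + Ch c x = 0 := by
  rw [← Fh_eq]
  have e : yh c x (y 1) = fun i => (Mx c x).det * y i := by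
    funext i
    rw [det_mul_eq c x y h.1 i, h0, one_mul]
    rfl
  rw [Fh, e, qf_smul3, qf_smul4, h.2, mul_zero, mul_zero]

end linear

end Pool.Agent.Helper47.HN
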