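import Mathlib
import Pool.Agent.Helper47.HN.Norm
import Pool.Agent.Helper23.HNG.Dbl

/-!
# Project HN: exchange of the two factors, with a transposition of the coordinates of `x`

`swp` exchanges the two factors and the coordinates `1` and `m + 1` of `x`, so that
`Mx (c ∘ swp) y` is `Nx c y` up to a permutation of the columns.
-/

namespace Pool.Agent.Helper47.HN

open MvPolynomial Pool.Agent.Helper28.HN

universe u v

variable {m : ℕ}

/-- The transposition of the coordinates `1` and `m + 1`. -/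
def tp (m : ℕ) : Equiv.Perm (I m) := Equiv.swap 1 (Fin.last (m + 1))

/-- The same for the affine coordinates. -/
def tpa (m : ℕ) : Equiv.Perm (Fin (m + 1)) := Equiv.swap 0 (Fin.last m)

theorem tp_tp (i : I m) : tp m (tp m i) = i := Equiv.swap_apply_self _ _ _

theorem tpa_tpa (i : Fin (m + 1)) : tpa m (tpa m i) = i := Equiv.swap_apply_self _ _ _

theorem tp_zero : tp m 0 = 0 := by
  refine Equiv.swap_apply_of_ne_of_ne ?_ ?_
  · exact Fin.ne_of_val_ne (by simp)
  · exact Fin.ne_of_val_ne (by simp)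

theorem tp_one : tp m 1 = Fin.last (m + 1) := Equiv.swap_apply_left _ _

theorem tp_succ (i : Fin (m + 1)) : tp m i.succ = (tpa m i).succ := by
  rw [tp, tpa]
  by_cases h0 : i = 0
  · subst h0
    rw [Equiv.swap_apply_left]
    have : (Fin.succ 0 : Fin (m + 2)) = 1 := rfl
    rw [this, Equiv.swap_apply_left]
    rfl
  by_cases h1 : i = Fin.last m
  · subst h1
    rw [Equiv.swap_apply_right, Fin.succ_last, Equiv.swap_apply_right]
    rfl
  rw [Equiv.swap_apply_of_ne_of_ne h0 h1, Equiv.swap_apply_of_ne_of_ne]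
  · intro h
    exact h0 (Fin.succ_injective _ (h.trans rfl))
  · intro h
    rw [← Fin.succ_last] at h
    exact h1 (Fin.succ_injective _ h)

theorem aff_tpa {S : Type*} [CommRing S] (x : Fin (m + 1) → S) (i : I m) :
    (aff (fun j => x (tpa m j)) : I m → S) i = (aff x : I m → S) (tp m i) := by
  refine Fin.cases ?_ (fun j => ?_) i
  · rw [tp_zero]
    rfl
  · rw [tp_succ]
    rfl

/-- Exchange of the two factors and transposition. -/
def swp : Ix m → Ix m
  | .inl (r, i, j) => .inl (r, tp m j, i)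
  | .inr (i, j, k, l) => .inr (tp m k, tp m l, i, j)

theorem swp_injective : Function.Injective (swp (m := m)) := by
  intro a b h
  rcases a with ⟨r, i, j⟩ | ⟨i, j, k, l⟩ <;> rcases b with ⟨r', i', j'⟩ | ⟨i', j', k', l'⟩ <;>
    simp only [swp, Sum.inl.injEq, Sum.inr.injEq, Prod.mk.injEq, reduceCtorEq,
      EmbeddingLike.apply_eq_iff_eq] at h ⊢
  · exact ⟨h.1, h.2.2, h.2.1⟩
  · exact ⟨h.2.2.1, h.2.2.2, h.1, h.2.1⟩

section ring

variable {S : Type*} [CommRing S] (c : Ix m → S)

theorem lf_swp (r : Fin m) (y x : I m → S) :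
    lf (fun e => c (swp e)) r y x = lf c r (fun i => x (tp m i)) y := by
  simp only [lf, swp]
  rw [Finset.sum_comm]
  refine Finset.sum_equiv (tp m) (by simp) fun j _ => Finset.sum_congr rfl fun i _ => ?_
  rw [tp_tp]
  ring

theorem pq_swp (i j k l : I m) :
    pq (fun e => c (swp e)) i j k l = pq c (tp m k) (tp m l) i j := by
  simp only [pq, swp]
  ring

theorem qf_swp (y y' x x' : I m → S) :
    qf (fun e => c (swp e)) y y' x x' =
      qf c (fun i => x (tp m i)) (fun i => x' (tp m i)) y y' := by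
  have e : qf c (fun i => x (tp m i)) (fun i => x' (tp m i)) y y' =
      ∑ k, ∑ l, ∑ i, ∑ j, pq c (tp m k) (tp m l) i j * x k * x' l * y i * y' j := by
    rw [qf]
    refine (Finset.sum_equiv (tp m) (by simp) fun k _ => ?_).symm
    refine Finset.sum_equiv (tp m) (by simp) fun l _ => ?_
    simp only [tp_tp]
  rw [e]
  have e1 : ∀ f : I m → I m → I m → I m → S,
      ∑ k, ∑ l, ∑ i, ∑ j, f i j k l = ∑ i, ∑ j, ∑ k, ∑ l, f i j k l := by
    intro f
    calc ∑ k, ∑ l, ∑ i, ∑ j, f i j k l = ∑ k, ∑ i, ∑ l, ∑ j, f i j k l :=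
          Finset.sum_congr rfl fun k _ => Finset.sum_comm
      _ = ∑ i, ∑ k, ∑ l, ∑ j, f i j k l := Finset.sum_comm
      _ = ∑ i, ∑ k, ∑ j, ∑ l, f i j k l :=
          Finset.sum_congr rfl fun i _ => Finset.sum_congr rfl fun k _ => Finset.sum_comm
      _ = ∑ i, ∑ j, ∑ k, ∑ l, f i j k l := Finset.sum_congr rfl fun i _ => Finset.sum_comm
  rw [e1 fun i j k l => pq c (tp m k) (tp m l) i j * x k * x' l * y i * y' j, qf]
  refine Finset.sum_congr rfl fun i _ => Finset.sum_congr rfl fun j _ =>
    Finset.sum_congr rfl fun k _ => Finset.sum_congr rfl fun l _ => ?_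
  rw [pq_swp]
  ring

theorem onX_swp (x y : I m → S) :
    OnX (fun e => c (swp e)) y (fun i => x (tp m i)) ↔ OnX c x y := by
  have e : (fun i => (fun i => x (tp m i)) (tp m i)) = x := by
    funext i
    exact congrArg x (tp_tp i)
  unfold OnX
  rw [qf_swp, e]
  simp only [lf_swp, e]

theorem onX_swp_aff (x y : Fin (m + 1) → S) :
    OnX (fun e => c (swp e)) (aff y) (aff fun i => x (tpa m i)) ↔ OnX c (aff x) (aff y) := by
  rw [← onX_swp c (aff x) (aff y)]
  have e : (aff fun i => x (tpa m i) : I m → S) = fun i => (aff x : I m → S) (tp m i) :=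
    funext fun i => aff_tpa x i
  rw [e]

theorem single_tp (i : I m) :
    (fun j => (Pi.single i 1 : I m → S) (tp m j)) = Pi.single (tp m i) 1 := by
  funext j
  by_cases h : tp m j = i
  · rw [h, Pi.single_eq_same, ← h, tp_tp, Pi.single_eq_same]
  · have h' : j ≠ tp m i := by
      rintro rfl
      exact h (tp_tp i)
    rw [Pi.single_eq_of_ne h, Pi.single_eq_of_ne h']

/-- The matrix of the exchanged forms. -/
theorem det_swp (y : I m → S) : ∃ e : S, IsUnit e ∧
    (Mx (fun e => c (swp e)) y).det = e * (Nx c y).det := by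
  rcases Nat.eq_zero_or_pos m with h0 | h0
  · subst h0
    exact ⟨1, isUnit_one, by rw [Matrix.det_fin_zero, Matrix.det_fin_zero, one_mul]⟩
  obtain ⟨n, rfl⟩ : ∃ n, m = n + 1 := ⟨m - 1, by omega⟩
  have e : Mx (fun e => c (swp e)) y = (Nx c y).submatrix id (finRotate (n + 1)) := by
    ext r b
    rw [Matrix.submatrix_apply, id_eq, Nx, Mx]
    show lf (fun e => c (swp e)) r y (Pi.single b.succ.succ 1) =
      lf c r (Pi.single (finRotate (n + 1) b).castSucc.succ 1) y
    rw [lf_swp, single_tp]
    congr 2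
    refine Fin.lastCases ?_ (fun i => ?_) b
    · rw [finRotate_last, Fin.castSucc_zero, Fin.succ_last, Fin.succ_last, tp,
        Equiv.swap_apply_right]
      rfl
    · have h1 : finRotate (n + 1) i.castSucc = i.succ := by
        rw [finRotate_apply]
        exact Fin.coeSucc_eq_succ
      rw [h1, tp, Equiv.swap_apply_of_ne_of_ne]
      · rfl
      · exact Fin.ne_of_val_ne (by simp)
      · exact Fin.ne_of_val_ne (by simp; omega)
  rw [e, Matrix.det_permute']
  exact ⟨_, (Units.isUnit (Equiv.Perm.sign (finRotate (n + 1)))).map (Int.castRingHom S), rfl⟩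

theorem Ah_swp (y : I m → S) :
    (Mx (fun e => c (swp e)) y).det ^ 2 * qf c (xh c y) (xh c y) y y =
      (Nx c y).det ^ 2 * Ah (fun e => c (swp e)) y := by
  have hx : ∀ r, lf (fun e => c (swp e)) r y (fun i => xh c y (tp m i)) = 0 := by
    intro r
    rw [lf_swp]
    have e : (fun i => xh c y (tp m (tp m i))) = xh c y := by
      funext i
      rw [tp_tp]
    rw [e]
    exact Pool.Agent.Helper23.HNG.lf_xh c y r
  have h1 := det_mul_eq (fun e => c (swp e)) y (fun i => xh c y (tp m i)) hx
  have h0 : xh c y (tp m 0) = 0 := by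
    rw [tp_zero]
    rfl
  have hl : xh c y (tp m 1) = (Nx c y).det := by
    rw [tp_one, xh, ← Fin.succ_last, Fin.cons_succ, vh, Fin.snoc_last]
  have h2 : (fun i => (Mx (fun e => c (swp e)) y).det * xh c y (tp m i)) =
      fun i => (Nx c y).det * Y1 (fun e => c (swp e)) y i := by
    funext i
    rw [h1 i, h0, hl, zero_mul, zero_add]
  have h3 : qf (fun e => c (swp e)) y y (fun i => xh c y (tp m i)) (fun i => xh c y (tp m i)) =
      qf c (xh c y) (xh c y) y y := by
    rw [qf_swp]
    simp only [tp_tp]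
  have h4 := congrArg (fun w => qf (fun e => c (swp e)) y y w w) h2
  simp only [qf_smul3, qf_smul4] at h4
  rw [h3] at h4
  rw [Ah]
  linear_combination h4

end ring

/-- The denominator over `y` does not vanish. -/
theorem den_ne {k : Type*} [Field k] (c : Ix m → k) (y : I m → k) (h1 : (Nx c y).det ≠ 0)
    (h2 : qf c (xh c y) (xh c y) y y ≠ 0) :
    Ah (fun e => c (swp e)) y * (Mx (fun e => c (swp e)) y).det ≠ 0 := by
  obtain ⟨e, he, hd⟩ := det_swp c y
  have h3 : (Mx (fun e => c (swp e)) y).det ≠ 0 := by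
    rw [hd]
    exact mul_ne_zero he.ne_zero h1
  refine mul_ne_zero ?_ h3
  intro h0
  have h4 := Ah_swp c y
  rw [h0, mul_zero] at h4
  exact mul_ne_zero (pow_ne_zero 2 h3) h2 h4

section norm

variable {K : Type u} [CommRing K]

/-- The norm of `F` over `y`. -/
theorem exists_normpoly' (c : Ix m → K) (hns : NS fun e => c (swp e))
    (F : MvPolynomial (Fin (m + 1) ⊕ Fin (m + 1)) K) :
    ∃ N : MvPolynomial (Fin (m + 1)) K,
      (∀ (S : Type v) [CommRing S] [Algebra K S] (x y : Fin (m + 1) → S),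
        OnX (fun e => algebraMap K S (c e)) (aff x) (aff y) →
        aeval (Sum.elim x y) F = 0 → aeval y N = 0) ∧
      (N = 0 → ∃ n : ℕ, ∀ (S : Type v) [CommRing S] [Algebra K S] (x y : Fin (m + 1) → S),
        OnX (fun e => algebraMap K S (c e)) (aff x) (aff y) →
        (aeval y (Ap fun e => c (swp e)) * aeval y (Dp fun e => c (swp e))) ^ n *
          aeval (Sum.elim x y) F = 0) := by
  obtain ⟨N, h1, h2⟩ := exists_normpoly.{u, v} (fun e => c (swp e)) hns
    (rename (Sum.elim (fun i => Sum.inr (tpa m i)) Sum.inl) F)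
  have hren : ∀ (S : Type v) [CommRing S] [Algebra K S] (x y : Fin (m + 1) → S),
      aeval (Sum.elim y fun i => x (tpa m i))
        (rename (Sum.elim (fun i => Sum.inr (tpa m i)) Sum.inl) F) = aeval (Sum.elim x y) F := by
    intro S _ _ x y
    rw [aeval_rename]
    congr 2
    funext j
    rcases j with j | j
    · show x (tpa m (tpa m j)) = x j
      rw [tpa_tpa]
    · rfl
  refine ⟨N, ?_, ?_⟩
  · intro S _ _ x y hxy hF
    exact h1 S y (fun i => x (tpa m i)) ((onX_swp_aff _ x y).mpr hxy) (by rw [hren]; exact hF)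
  · intro hN
    obtain ⟨n, hn⟩ := h2 hN
    refine ⟨n, fun S _ _ x y hxy => ?_⟩
    have := hn S y (fun i => x (tpa m i)) ((onX_swp_aff _ x y).mpr hxy)
    rwa [hren] at this

end norm

end Pool.Agent.Helper47.HN
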