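import Mathlib
import Pool.Agent.Helper47.HN.Swp

/-!
# Project HN: the component of the chart which dominates the space of the `x`

`Dom P`: no nonzero polynomial in the coordinates of `x` is in `P`.  For general coefficients there
is exactly one prime `P` with `Dom P` over the chart ideal; its residue ring has transcendence
degree `m + 1`; a function which vanishes on the chart up to a power of the denominators is in `P`,
and every function in `P` vanishes on the chart up to a power of the denominator.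
-/

namespace Pool.Agent.Helper47.HN

open MvPolynomial Pool.Agent.Helper28.HN

universe u v

variable {m : ℕ} {K : Type u} [Field K]

/-- No nonzero polynomial in the coordinates of `x` is in `P`. -/
def Dom (P : Ideal (MvPolynomial (Fin (m + 1) ⊕ Fin (m + 1)) K)) : Prop :=
  ∀ Φ : MvPolynomial (Fin (m + 1)) K, rename Sum.inl Φ ∈ P → Φ = 0

theorem NS.Ap_ne {c : Ix m → K} (h : NS c) : Ap c ≠ 0 := by
  intro h0
  have h1 := (h 1 0 (by rw [h0]; ring)).1
  exact one_ne_zero h1

section quot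

variable (P : Ideal (MvPolynomial (Fin (m + 1) ⊕ Fin (m + 1)) K))

/-- The coordinates `x` in the residue ring. -/
noncomputable def qx (i : Fin (m + 1)) : MvPolynomial (Fin (m + 1) ⊕ Fin (m + 1)) K ⧸ P :=
  Ideal.Quotient.mk P (X (.inl i))

/-- The coordinates `y` in the residue ring. -/
noncomputable def qy (i : Fin (m + 1)) : MvPolynomial (Fin (m + 1) ⊕ Fin (m + 1)) K ⧸ P :=
  Ideal.Quotient.mk P (X (.inr i))

theorem aeval_q (F : MvPolynomial (Fin (m + 1) ⊕ Fin (m + 1)) K) :
    aeval (Sum.elim (qx P) (qy P)) F = Ideal.Quotient.mk P F := by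
  have e : (aeval (Sum.elim (qx P) (qy P)) :
      MvPolynomial (Fin (m + 1) ⊕ Fin (m + 1)) K →ₐ[K] _) = Ideal.Quotient.mkₐ K P := by
    apply MvPolynomial.algHom_ext
    rintro (i | i) <;> rw [aeval_X] <;> rfl
  rw [e]
  rfl

theorem aeval_qx (Φ : MvPolynomial (Fin (m + 1)) K) :
    aeval (qx P) Φ = Ideal.Quotient.mk P (rename Sum.inl Φ) := by
  rw [← aeval_q, aeval_rename]
  rfl

theorem aeval_qy (Φ : MvPolynomial (Fin (m + 1)) K) :
    aeval (qy P) Φ = Ideal.Quotient.mk P (rename Sum.inr Φ) := by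
  rw [← aeval_q, aeval_rename]
  rfl

theorem onX_q {c : Ix m → K} (h : chartIdeal c ≤ P) :
    OnX (fun e => algebraMap K (MvPolynomial (Fin (m + 1) ⊕ Fin (m + 1)) K ⧸ P) (c e))
      (aff (qx P)) (aff (qy P)) := by
  rw [← chartIdeal_le']
  intro F hF
  rw [RingHom.mem_ker]
  exact (aeval_q P F).trans (Ideal.Quotient.eq_zero_iff_mem.mpr (h hF))

end quot

/-- The elements of `P` vanish on the chart, outside of the denominator. -/
theorem vanish_of_mem {c : Ix m → K} (hns : NS c)
    {P : Ideal (MvPolynomial (Fin (m + 1) ⊕ Fin (m + 1)) K)} (hP : chartIdeal c ≤ P)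
    (hdom : Dom P) {F : MvPolynomial (Fin (m + 1) ⊕ Fin (m + 1)) K} (hF : F ∈ P) :
    ∃ n : ℕ, ∀ (S : Type u) [CommRing S] [Algebra K S] (x y : Fin (m + 1) → S),
      OnX (fun e => algebraMap K S (c e)) (aff x) (aff y) →
      (aeval x (Ap c) * aeval x (Dp c)) ^ n * aeval (Sum.elim x y) F = 0 := by
  obtain ⟨n, r0, r1, h⟩ := exists_lin.{u, u} c F
  have h1 := h _ _ _ (onX_q P hP)
  rw [aeval_q, Ideal.Quotient.eq_zero_iff_mem.mpr hF, mul_zero] at h1
  have h2 := quad_eq (fun e => algebraMap K (MvPolynomial (Fin (m + 1) ⊕ Fin (m + 1)) K ⧸ P) (c e))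
    (aff (qx P)) (aff (qy P)) (onX_q P hP) rfl
  have a1 : (aff (qy P) : I m → _) 1 = qy P 0 := rfl
  rw [← aeval_Ap, ← aeval_Bp, ← aeval_Cp, a1] at h2
  have h3 : aeval (qx P) (Ap c * r0 ^ 2 - 2 * Bp c * r0 * r1 + Cp c * r1 ^ 2) = 0 := by
    simp only [map_mul, map_sub, map_add, map_ofNat, map_pow]
    linear_combination ((-(aeval (qx P) (Ap c))) * (aeval (qx P) r0 - aeval (qx P) r1 * qy P 0) +
      2 * aeval (qx P) (Bp c) * aeval (qx P) r1) * h1 + (aeval (qx P) r1) ^ 2 * h2
  rw [aeval_qx, Ideal.Quotient.eq_zero_iff_mem] at h3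
  obtain ⟨h4, h5⟩ := hns r0 r1 (hdom _ h3)
  refine ⟨n, fun S _ _ x y hxy => ?_⟩
  rw [h S x y hxy, h4, h5]
  simp

/-- At points over a field where the denominator does not vanish. -/
theorem eval_of_mem {c : Ix m → K} (hns : NS c)
    {P : Ideal (MvPolynomial (Fin (m + 1) ⊕ Fin (m + 1)) K)} (hP : chartIdeal c ≤ P)
    (hdom : Dom P) {F : MvPolynomial (Fin (m + 1) ⊕ Fin (m + 1)) K} (hF : F ∈ P)
    {S : Type u} [CommRing S] [IsDomain S] [Algebra K S] {x y : Fin (m + 1) → S}
    (hxy : OnX (fun e => algebraMap K S (c e)) (aff x) (aff y))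
    (hA : Ah (fun e => algebraMap K S (c e)) (aff x) ≠ 0)
    (hD : (Mx (fun e => algebraMap K S (c e)) (aff x)).det ≠ 0) :
    aeval (Sum.elim x y) F = 0 := by
  obtain ⟨n, hn⟩ := vanish_of_mem hns hP hdom hF
  have h := hn S x y hxy
  rw [aeval_Ap, aeval_Dp] at h
  exact (mul_eq_zero.mp h).resolve_left (pow_ne_zero n (mul_ne_zero hA hD))

/-- Functions which vanish on the chart outside of the denominator over `x`. -/
theorem mem_of_vanish {c : Ix m → K} (hA : Ap c ≠ 0) (hD : Dp c ≠ 0)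
    {P : Ideal (MvPolynomial (Fin (m + 1) ⊕ Fin (m + 1)) K)} (hprime : P.IsPrime)
    (hP : chartIdeal c ≤ P) (hdom : Dom P) {F : MvPolynomial (Fin (m + 1) ⊕ Fin (m + 1)) K}
    (h : ∃ n : ℕ, ∀ (S : Type u) [CommRing S] [Algebra K S] (x y : Fin (m + 1) → S),
      OnX (fun e => algebraMap K S (c e)) (aff x) (aff y) →
      (aeval x (Ap c) * aeval x (Dp c)) ^ n * aeval (Sum.elim x y) F = 0) : F ∈ P := by
  obtain ⟨n, hn⟩ := h
  have h1 := hn _ _ _ (onX_q P hP)
  rw [aeval_q, ← map_mul, aeval_qx, ← map_pow, ← map_mul, Ideal.Quotient.eq_zero_iff_mem] at h1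
  rcases hprime.mem_or_mem h1 with h2 | h2
  · exfalso
    exact mul_ne_zero hA hD (hdom _ (hprime.mem_of_pow_mem n h2))
  · exact h2

/-- Functions which vanish on the chart outside of the denominator over `y`; it is enough that
there is one point where neither of the denominators vanishes. -/
theorem mem_of_vanish' {c : Ix m → K} (hns : NS c)
    {P : Ideal (MvPolynomial (Fin (m + 1) ⊕ Fin (m + 1)) K)} (hprime : P.IsPrime)
    (hP : chartIdeal c ≤ P) (hdom : Dom P) {F : MvPolynomial (Fin (m + 1) ⊕ Fin (m + 1)) K}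
    (h : ∃ n : ℕ, ∀ (S : Type u) [CommRing S] [Algebra K S] (x y : Fin (m + 1) → S),
      OnX (fun e => algebraMap K S (c e)) (aff x) (aff y) →
      (aeval y (Ap fun e => c (swp e)) * aeval y (Dp fun e => c (swp e))) ^ n *
        aeval (Sum.elim x y) F = 0)
    {S : Type u} [Field S] [Algebra K S] {x y : Fin (m + 1) → S}
    (hxy : OnX (fun e => algebraMap K S (c e)) (aff x) (aff y))
    (hA : Ah (fun e => algebraMap K S (c e)) (aff x) ≠ 0)
    (hD : (Mx (fun e => algebraMap K S (c e)) (aff x)).det ≠ 0)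
    (hN : (Nx (fun e => algebraMap K S (c e)) (aff y)).det ≠ 0)
    (hκ : qf (fun e => algebraMap K S (c e)) (xh (fun e => algebraMap K S (c e)) (aff y))
      (xh (fun e => algebraMap K S (c e)) (aff y)) (aff y) (aff y) ≠ 0) : F ∈ P := by
  obtain ⟨n, hn⟩ := h
  have h1 := hn _ _ _ (onX_q P hP)
  rw [aeval_q, ← map_mul, aeval_qy, ← map_pow, ← map_mul, Ideal.Quotient.eq_zero_iff_mem] at h1
  rcases hprime.mem_or_mem h1 with h2 | h2
  · exfalso
    have h3 := eval_of_mem hns hP hdom (hprime.mem_of_pow_mem n h2) hxy hA hD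
    have e : (Sum.elim x y ∘ Sum.inr : Fin (m + 1) → S) = y := rfl
    rw [aeval_rename, e, map_mul, aeval_Ap, aeval_Dp] at h3
    exact den_ne (fun e => algebraMap K S (c e)) (aff y) hN hκ h3
  · exact h2

/-- There is at most one component which dominates the space of the `x`. -/
theorem dom_unique {c : Ix m → K} (hns : NS c) (hD : Dp c ≠ 0)
    {P P' : Ideal (MvPolynomial (Fin (m + 1) ⊕ Fin (m + 1)) K)}
    (hP : chartIdeal c ≤ P) (hdom : Dom P) (hprime : P.IsPrime)
    (hP' : chartIdeal c ≤ P') (hdom' : Dom P') (hprime' : P'.IsPrime) : P = P' := by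
  apply le_antisymm
  · exact fun F hF => mem_of_vanish hns.Ap_ne hD hprime' hP' hdom' (vanish_of_mem hns hP hdom hF)
  · exact fun F hF => mem_of_vanish hns.Ap_ne hD hprime hP hdom (vanish_of_mem hns hP' hdom' hF)

/-- There is a component which dominates the space of the `x`. -/
theorem exists_dom {c : Ix m → K} (hA : Ap c ≠ 0) (hD : Dp c ≠ 0) :
    ∃ P : Ideal (MvPolynomial (Fin (m + 1) ⊕ Fin (m + 1)) K), P.IsPrime ∧ chartIdeal c ≤ P ∧
      Dom P := by
  let Ω := AlgebraicClosure (FractionRing (MvPolynomial (Fin (m + 1)) K))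
  let x : Fin (m + 1) → Ω := fun i => algebraMap (MvPolynomial (Fin (m + 1)) K) Ω (X i)
  have hx : ∀ Φ : MvPolynomial (Fin (m + 1)) K, aeval x Φ = algebraMap _ Ω Φ := by
    intro Φ
    have e : (aeval x : MvPolynomial (Fin (m + 1)) K →ₐ[K] Ω) =
        IsScalarTower.toAlgHom K (MvPolynomial (Fin (m + 1)) K) Ω := by
      apply MvPolynomial.algHom_ext
      intro i
      rw [aeval_X]
      rfl
    rw [e]
    rfl
  have hinj : Function.Injective (algebraMap (MvPolynomial (Fin (m + 1)) K) Ω) := by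
    rw [IsScalarTower.algebraMap_eq (MvPolynomial (Fin (m + 1)) K)
      (FractionRing (MvPolynomial (Fin (m + 1)) K)) Ω]
    exact (algebraMap (FractionRing (MvPolynomial (Fin (m + 1)) K)) Ω).injective.comp
      (IsFractionRing.injective _ _)
  have hx0 : ∀ Φ : MvPolynomial (Fin (m + 1)) K, aeval x Φ = 0 → Φ = 0 := by
    intro Φ h
    rw [hx] at h
    exact (map_eq_zero_iff _ hinj).mp h
  set cΩ : Ix m → Ω := fun e => algebraMap K Ω (c e) with hcΩ
  have a1 : Ah cΩ (aff x) ≠ 0 := by
    rw [← aeval_Ap]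
    exact fun h => hA (hx0 _ h)
  have a2 : (Mx cΩ (aff x)).det ≠ 0 := by
    rw [← aeval_Dp]
    exact fun h => hD (hx0 _ h)
  obtain ⟨z, hz⟩ : ∃ z : Ω, Ah cΩ (aff x) * z ^ 2 + 2 * Bh cΩ (aff x) * z + Ch cΩ (aff x) = 0 := by
    have hp : (Polynomial.C (Ah cΩ (aff x)) * Polynomial.X ^ 2 +
        Polynomial.C (2 * Bh cΩ (aff x)) * Polynomial.X +
        Polynomial.C (Ch cΩ (aff x))).degree ≠ 0 := by
      rw [Polynomial.degree_quadratic a1]
      norm_num
    obtain ⟨z, hz⟩ := IsAlgClosed.exists_root _ hp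
    refine ⟨z, ?_⟩
    simpa using hz
  let y : Fin (m + 1) → Ω := fun i => (Mx cΩ (aff x)).det⁻¹ * yh cΩ (aff x) z i.succ
  have hy : (aff y : I m → Ω) = fun i => (Mx cΩ (aff x)).det⁻¹ * yh cΩ (aff x) z i := by
    funext i
    refine Fin.cases ?_ (fun j => rfl) i
    show (1 : Ω) = _
    have : yh cΩ (aff x) z 0 = (Mx cΩ (aff x)).det := by
      simp only [yh, Y0, Y1, Fin.cons_zero]
      ring
    rw [this, inv_mul_cancel₀ a2]
  have hon : OnX cΩ (aff x) (aff y) := by
    refine ⟨fun r => ?_, ?_⟩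
    · rw [hy, lf_smul_right, Pool.Agent.Helper23.HNG.lf_yh, mul_zero]
    · rw [hy, qf_smul3, qf_smul4]
      have : qf cΩ (aff x) (aff x) (yh cΩ (aff x) z) (yh cΩ (aff x) z) = 0 := by
        have h := Fh_eq cΩ (aff x) z
        rw [hz] at h
        exact h
      rw [this, mul_zero, mul_zero]
  refine ⟨RingHom.ker (aeval (Sum.elim x y) :
    MvPolynomial (Fin (m + 1) ⊕ Fin (m + 1)) K →ₐ[K] Ω), RingHom.ker_isPrime _,
    (chartIdeal_le' c x y).mpr hon, fun Φ hΦ => ?_⟩
  rw [RingHom.mem_ker, aeval_rename] at hΦ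
  exact hx0 Φ hΦ

section trdeg

theorem mem_adjoin {Ω : Type*} [Field Ω] [Algebra K Ω] (E : IntermediateField K Ω)
    {n : ℕ} (x : Fin n → Ω) (hx : ∀ i, x i ∈ E) (F : MvPolynomial (Fin n) K) : aeval x F ∈ E := by
  induction F using MvPolynomial.induction_on with
  | C a =>
    rw [aeval_C]
    exact E.algebraMap_mem a
  | add p q hp hq =>
    rw [map_add]
    exact E.add_mem hp hq
  | mul_X p i hp =>
    rw [map_mul, aeval_X]
    exact E.mul_mem hp (hx i)

/-- The coordinates `y` are algebraic over the field generated by the coordinates `x`. -/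
theorem y_algebraic {Ω : Type*} [Field Ω] [Algebra K Ω] {c : Ix m → K}
    {x y : Fin (m + 1) → Ω} (h : OnX (fun e => algebraMap K Ω (c e)) (aff x) (aff y))
    (hA : aeval x (Ap c) ≠ 0) (hD : aeval x (Dp c) ≠ 0) (l : Fin (m + 1)) :
    IsAlgebraic (IntermediateField.adjoin K (Set.range x)) (y l) := by
  set E := IntermediateField.adjoin K (Set.range x) with hE
  have hx : ∀ i, x i ∈ E := fun i => IntermediateField.subset_adjoin K _ ⟨i, rfl⟩
  have hm : ∀ F : MvPolynomial (Fin (m + 1)) K, aeval x F ∈ E := mem_adjoin E x hx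
  have hal : ∀ z : Ω, z ∈ E → IsAlgebraic E z := fun z hz =>
    isAlgebraic_algebraMap (⟨z, hz⟩ : E)
  have h2 := quad_eq (fun e => algebraMap K Ω (c e)) (aff x) (aff y) h rfl
  have a1 : (aff y : I m → Ω) 1 = y 0 := rfl
  rw [← aeval_Ap, ← aeval_Bp, ← aeval_Cp, a1] at h2
  have hz : IsAlgebraic E (y 0) := by
    let a : E := ⟨aeval x (Ap c), hm _⟩
    let b : E := ⟨2 * aeval x (Bp c), E.mul_mem (ofNat_mem E 2) (hm _)⟩
    let d : E := ⟨aeval x (Cp c), hm _⟩
    have ha : a ≠ 0 := fun h0 => hA (congrArg Subtype.val h0)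
    refine ⟨Polynomial.C a * Polynomial.X ^ 2 + Polynomial.C b * Polynomial.X + Polynomial.C d,
      ?_, ?_⟩
    · intro h0
      have := Polynomial.degree_quadratic (b := b) (c := d) ha
      rw [h0, Polynomial.degree_zero] at this
      exact absurd this (by decide)
    · simp only [map_add, map_mul, map_pow, Polynomial.aeval_C, Polynomial.aeval_X]
      exact h2
  have h3 := det_mul_eq (fun e => algebraMap K Ω (c e)) (aff x) (aff y) h.1 l.succ
  have a0 : (aff y : I m → Ω) 0 = 1 := rfl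
  have al : (aff y : I m → Ω) l.succ = y l := rfl
  rw [← aeval_Dp, ← aeval_Y0p, ← aeval_Y1p, a0, a1, al, one_mul] at h3
  have h4 : y l = (aeval x (Y0p c l.succ) + y 0 * aeval x (Y1p c l.succ)) * (aeval x (Dp c))⁻¹ := by
    rw [← h3]
    field_simp
  rw [h4]
  exact ((hal _ (hm _)).add (hz.mul (hal _ (hm _)))).mul (hal _ (E.inv_mem (hm _)))

open IntermediateField algebraAdjoinAdjoin in
/-- The transcendence degree of the component. -/
theorem trdeg_eq' {K : Type} [Field K] {c : Ix m → K} (hA : Ap c ≠ 0) (hD : Dp c ≠ 0)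
    {P : Ideal (MvPolynomial (Fin (m + 1) ⊕ Fin (m + 1)) K)} [hprime : P.IsPrime]
    (hP : chartIdeal c ≤ P) (hdom : Dom P) :
    Algebra.trdeg K (MvPolynomial (Fin (m + 1) ⊕ Fin (m + 1)) K ⧸ P) = (m + 1 : ℕ) := by
  let R := MvPolynomial (Fin (m + 1) ⊕ Fin (m + 1)) K ⧸ P
  let Ω := FractionRing R
  let x : Fin (m + 1) → Ω := fun i => algebraMap R Ω (qx P i)
  let y : Fin (m + 1) → Ω := fun i => algebraMap R Ω (qy P i)
  have hF : ∀ F : MvPolynomial (Fin (m + 1) ⊕ Fin (m + 1)) K,
      aeval (Sum.elim x y) F = algebraMap R Ω (Ideal.Quotient.mk P F) := by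
    intro F
    have e : (aeval (Sum.elim x y) : MvPolynomial (Fin (m + 1) ⊕ Fin (m + 1)) K →ₐ[K] Ω) =
        (IsScalarTower.toAlgHom K R Ω).comp (Ideal.Quotient.mkₐ K P) := by
      apply MvPolynomial.algHom_ext
      rintro (i | i) <;> rw [aeval_X] <;> rfl
    rw [e]
    rfl
  have hx : ∀ Φ : MvPolynomial (Fin (m + 1)) K, aeval x Φ = 0 → Φ = 0 := by
    intro Φ h
    apply hdom
    rw [← Ideal.Quotient.eq_zero_iff_mem]
    apply IsFractionRing.injective R Ω
    rw [map_zero, ← hF, aeval_rename]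
    exact h
  have hind : AlgebraicIndependent K x := by
    rw [algebraicIndependent_iff]
    exact hx
  have hon : OnX (fun e => algebraMap K Ω (c e)) (aff x) (aff y) := by
    rw [← chartIdeal_le']
    intro F hF'
    rw [RingHom.mem_ker]
    exact (hF F).trans (by rw [Ideal.Quotient.eq_zero_iff_mem.mpr (hP hF'), map_zero])
  have hy := y_algebraic hon (fun h => hA (hx _ h)) (fun h => hD (hx _ h))
  have hal : ∀ F : MvPolynomial (Fin (m + 1) ⊕ Fin (m + 1)) K,
      IsAlgebraic (IntermediateField.adjoin K (Set.range x)) (aeval (Sum.elim x y) F) := by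
    intro F
    have hal : ∀ z : Ω, z ∈ IntermediateField.adjoin K (Set.range x) →
        IsAlgebraic (IntermediateField.adjoin K (Set.range x)) z := fun z hz =>
      isAlgebraic_algebraMap (⟨z, hz⟩ : IntermediateField.adjoin K (Set.range x))
    induction F using MvPolynomial.induction_on with
    | C a =>
      rw [aeval_C]
      exact hal _ ((IntermediateField.adjoin K (Set.range x)).algebraMap_mem a)
    | add p q hp hq =>
      rw [map_add]
      exact hp.add hq
    | mul_X p i hp =>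
      rw [map_mul, aeval_X]
      refine hp.mul ?_
      rcases i with i | i
      · exact hal _ (IntermediateField.subset_adjoin K _ ⟨i, rfl⟩)
      · exact hy i
  have hΩ : Algebra.IsAlgebraic (IntermediateField.adjoin K (Set.range x)) Ω := by
    refine ⟨fun z => ?_⟩
    obtain ⟨a, b, hb, rfl⟩ := IsFractionRing.div_surjective (A := R) z
    obtain ⟨F, rfl⟩ := Ideal.Quotient.mk_surjective a
    obtain ⟨G, rfl⟩ := Ideal.Quotient.mk_surjective b
    rw [div_eq_mul_inv, ← hF, ← hF]
    exact (hal F).mul (hal G).inv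
  apply le_antisymm
  · have h1 : Algebra.trdeg K R ≤ Algebra.trdeg K Ω :=
      trdeg_le_of_injective (IsScalarTower.toAlgHom K _ Ω) (IsFractionRing.injective _ _)
    refine h1.trans ?_
    have h3 : Algebra.IsAlgebraic (Algebra.adjoin K (Set.range x)) Ω :=
      (IsFractionRing.comap_isAlgebraic_iff (A := Algebra.adjoin K (Set.range x))
        (K := IntermediateField.adjoin K (Set.range x))).mpr hΩ
    refine (Algebra.IsAlgebraic.trdeg_le_cardinalMk K (Set.range x)).trans ?_
    refine Cardinal.mk_range_le.trans ?_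
    simp
  · have h1 : AlgebraicIndependent K (qx P) :=
      AlgebraicIndependent.of_comp (IsScalarTower.toAlgHom K R Ω) hind
    have := h1.cardinalMk_le_trdeg
    simpa using this

end trdeg

end Pool.Agent.Helper47.HN
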